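import Pool.Agent.helper7.AL.Spec

/-!
# Project AL, row GP1: four clusters give a true case
-/

set_option autoImplicit false

namespace Pool.Agent.AL

open Finset Pool.Agent.helper85.FC Pool.Agent.helper11.MK

theorem GP1_symm {v w : ℕ × ℤ} (h : Both v w) : Both w v :=
  Set.Infinite.mono (fun _ hn => ⟨hn.2, hn.1⟩) h

theorem GP1_same (hT : TRC_stmt) {s : ℕ} (hs : 0 < s) {h x y : ℤ} (hb : Bad (y - x))
    (hB : Both (s, h + x) (s, h + y)) : False := by
  have h1 := hT s 1 1 (h + y) (h + x) hs one_pos one_pos (Nat.coprime_one_left 1) (by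
    intro h2
    apply hb.1
    push_cast at h2
    linarith) (by
    rw [mul_one]
    exact GP1_symm hB)
  apply hb.2.2
  have h2 : ((1 : ℕ) : ℤ) * (h + y) - ((1 : ℕ) : ℤ) * (h + x) = y - x := by push_cast; ring
  rwa [h2] at h1

theorem GP1_cross (hT : TRC_stmt) {a b : ℕ} (ha : 0 < a) (hb : 0 < b) (hab : Nat.Coprime a b) {h h' z z' : ℤ}
    (hne : (a : ℤ) * (h + z) ≠ b * (h' + z')) (hB : Both (b, h + z) (a, h' + z')) :
    TrueCase a b (a * (h + z) - b * (h' + z')) :=
  hT 1 a b (h + z) (h' + z') one_pos ha hb hab hne (by rw [one_mul, one_mul]; exact hB)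

theorem GP1 (hT : TRC_stmt) : GP1_stmt := by
  classical
  intro k a b X₁ Y₁ X₂ Y₂ h h' hk ha hb hab hX₁ hY₁ hX₂ hY₂ hbad₁ hbad₂ hne hadm
  set U : Fin 4 → Finset ℤ := ![X₁, Y₁, X₂, Y₂] with hU
  set sl : Fin 4 → ℕ := ![b, b, a, a] with hsl
  set sh : Fin 4 → ℤ := ![h, h, h', h'] with hsh
  have hinj : ∀ i, Function.Injective (fun z : ℤ => (sl i, sh i + z)) := by
    intro i z z' hz
    have := (Prod.mk.inj hz).2
    linarith
  have hslpos : ∀ i, 0 < sl i := by
    intro i
    fin_cases i
    · exact hb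
    · exact hb
    · exact ha
    · exact ha
  have hUk : ∀ i, #(U i) = k := by
    intro i
    fin_cases i
    · exact hX₁
    · exact hY₁
    · exact hX₂
    · exact hY₂
  -- the cross pairs
  have hcr : ∀ z ∈ X₁ ∪ Y₁, ∀ z' ∈ X₂ ∪ Y₂, ((b, h + z) : ℕ × ℤ) ≠ (a, h' + z') := by
    intro z hz z' hz' he
    have h1 := (Prod.mk.inj he).1
    have h2 := (Prod.mk.inj he).2
    apply hne z hz z' hz'
    rw [h1, h2]
  have h01 : ∀ x ∈ X₁, ∀ y ∈ Y₁, x ≠ y := fun x hx y hy he => (hbad₁ x hx y hy).1 (by rw [he, sub_self])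
  have h23 : ∀ x ∈ X₂, ∀ y ∈ Y₂, x ≠ y := fun x hx y hy he => (hbad₂ x hx y hy).1 (by rw [he, sub_self])
  have hdis : ∀ i j, i ≠ j → ∀ z ∈ U i, ∀ z' ∈ U j, ((sl i, sh i + z) : ℕ × ℤ) ≠ (sl j, sh j + z') := by
    intro i j hij z hz z' hz'
    fin_cases i <;> fin_cases j
    · exact absurd rfl hij
    · intro he
      exact h01 z hz z' hz' (by have := (Prod.mk.inj he).2; simp only [hsh] at this; simpa using this)
    · exact hcr z (mem_union_left _ hz) z' (mem_union_left _ hz')
    · exact hcr z (mem_union_left _ hz) z' (mem_union_right _ hz')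
    · intro he
      exact h01 z' hz' z hz (by have := (Prod.mk.inj he).2; simp only [hsh] at this; simpa using this.symm)
    · exact absurd rfl hij
    · exact hcr z (mem_union_right _ hz) z' (mem_union_left _ hz')
    · exact hcr z (mem_union_right _ hz) z' (mem_union_right _ hz')
    · exact fun he => hcr z' (mem_union_left _ hz') z (mem_union_left _ hz) he.symm
    · exact fun he => hcr z' (mem_union_right _ hz') z (mem_union_left _ hz) he.symm
    · exact absurd rfl hij
    · intro he
      exact h23 z hz z' hz' (by have := (Prod.mk.inj he).2; simp only [hsh] at this; simpa using this)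
    · exact fun he => hcr z' (mem_union_left _ hz') z (mem_union_right _ hz) he.symm
    · exact fun he => hcr z' (mem_union_right _ hz') z (mem_union_right _ hz) he.symm
    · intro he
      exact h23 z' hz' z hz (by have := (Prod.mk.inj he).2; simp only [hsh] at this; simpa using this.symm)
    · exact absurd rfl hij
  have hsame : ∀ (s : ℕ) (e z z' : ℤ), 0 < s → ((s, e + z) : ℕ × ℤ) ≠ (s, e + z') →
      (s : ℤ) * (e + z') ≠ (s : ℤ) * (e + z) := by
    intro s e z z' hs hv he
    apply hv
    have h1 : (s : ℤ) ≠ 0 := by exact_mod_cast hs.ne'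
    rw [mul_left_cancel₀ h1 he]
  have hcross : ∀ z ∈ X₁ ∪ Y₁, ∀ z' ∈ X₂ ∪ Y₂, (b : ℤ) * (h' + z') ≠ (a : ℤ) * (h + z) :=
    fun z hz z' hz' he => hne z hz z' hz' he.symm
  have hnp : ∀ i j, ∀ z ∈ U i, ∀ z' ∈ U j, ((sl i, sh i + z) : ℕ × ℤ) ≠ (sl j, sh j + z') →
      ((sl i : ℕ) : ℤ) * (sh j + z') ≠ ((sl j : ℕ) : ℤ) * (sh i + z) := by
    intro i j z hz z' hz' hv
    fin_cases i <;> fin_cases j
    · exact hsame b h z z' hb hv
    · exact hsame b h z z' hb hv
    · exact hcross z (mem_union_left _ hz) z' (mem_union_left _ hz')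
    · exact hcross z (mem_union_left _ hz) z' (mem_union_right _ hz')
    · exact hsame b h z z' hb hv
    · exact hsame b h z z' hb hv
    · exact hcross z (mem_union_right _ hz) z' (mem_union_left _ hz')
    · exact hcross z (mem_union_right _ hz) z' (mem_union_right _ hz')
    · exact fun he => hcross z' (mem_union_left _ hz') z (mem_union_left _ hz) he.symm
    · exact fun he => hcross z' (mem_union_right _ hz') z (mem_union_left _ hz) he.symm
    · exact hsame a h' z z' ha hv
    · exact hsame a h' z z' ha hv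
    · exact fun he => hcross z' (mem_union_left _ hz') z (mem_union_right _ hz) he.symm
    · exact fun he => hcross z' (mem_union_right _ hz') z (mem_union_right _ hz) he.symm
    · exact hsame a h' z z' ha hv
    · exact hsame a h' z z' ha hv
  obtain ⟨i, j, hij, v, hv, w, hw, hB⟩ := hk (fun i => (U i).image (fun z : ℤ => (sl i, sh i + z)))
    (fun i => by rw [card_image_of_injective _ (hinj i)]; exact hUk i)
    (fun i j hij => by
      rw [disjoint_left]
      intro v hv hv'
      obtain ⟨z, hz, rfl⟩ := mem_image.1 hv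
      obtain ⟨z', hz', he⟩ := mem_image.1 hv'
      exact hdis i j hij z hz z' hz' he.symm)
    (fun i v hv => by
      obtain ⟨z, _, rfl⟩ := mem_image.1 hv
      exact hslpos i)
    (fun i j v hv w hw hvw => by
      obtain ⟨z, hz, rfl⟩ := mem_image.1 hv
      obtain ⟨z', hz', rfl⟩ := mem_image.1 hw
      exact hnp i j z hz z' hz' hvw)
    (fun p hp => by
      obtain ⟨n, hn1, hn2⟩ := hadm p hp
      refine ⟨n, fun i v hv => ?_⟩
      obtain ⟨z, hz, rfl⟩ := mem_image.1 hv
      fin_cases i
      · exact hn1 z (mem_union_left _ hz)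
      · exact hn1 z (mem_union_right _ hz)
      · exact hn2 z (mem_union_left _ hz)
      · exact hn2 z (mem_union_right _ hz))
  obtain ⟨z, hz, rfl⟩ := mem_image.1 hv
  obtain ⟨z', hz', rfl⟩ := mem_image.1 hw
  have hfin : ∀ z ∈ X₁ ∪ Y₁, ∀ z' ∈ X₂ ∪ Y₂, Both (b, h + z) (a, h' + z') →
      ∃ z ∈ X₁ ∪ Y₁, ∃ z' ∈ X₂ ∪ Y₂, TrueCase a b (a * (h + z) - b * (h' + z')) :=
    fun z hz z' hz' hB => ⟨z, hz, z', hz', GP1_cross hT ha hb hab (hne z hz z' hz') hB⟩
  fin_cases i <;> fin_cases j
  · exact absurd rfl hij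
  · exact (GP1_same hT hb (hbad₁ z hz z' hz') hB).elim
  · exact hfin z (mem_union_left _ hz) z' (mem_union_left _ hz') hB
  · exact hfin z (mem_union_left _ hz) z' (mem_union_right _ hz') hB
  · exact (GP1_same hT hb (hbad₁ z' hz' z hz) (GP1_symm hB)).elim
  · exact absurd rfl hij
  · exact hfin z (mem_union_right _ hz) z' (mem_union_left _ hz') hB
  · exact hfin z (mem_union_right _ hz) z' (mem_union_right _ hz') hB
  · exact hfin z' (mem_union_left _ hz') z (mem_union_left _ hz) (GP1_symm hB)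
  · exact hfin z' (mem_union_right _ hz') z (mem_union_left _ hz) (GP1_symm hB)
  · exact absurd rfl hij
  · exact (GP1_same hT ha (hbad₂ z hz z' hz') hB).elim
  · exact hfin z' (mem_union_left _ hz') z (mem_union_right _ hz) (GP1_symm hB)
  · exact hfin z' (mem_union_right _ hz') z (mem_union_right _ hz) (GP1_symm hB)
  · exact (GP1_same hT ha (hbad₂ z' hz' z hz) (GP1_symm hB)).elim
  · exact absurd rfl hij

end Pool.Agent.AL
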